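import Mathlib
import Pool.Agent.H39.SHM

set_option autoImplicit false

namespace Pool.Agent.Results.MP_056111_lc.NotSigmaIdeal

/-- `A` is strongly Haar meager: it lies in a Borel set `B` for which some nonempty compact set
`C` meets every translate `B + g` in a set that is meager in `C`. -/
def StronglyHaarMeager {G : Type} [AddCommGroup G] [TopologicalSpace G] (A : Set G) : Prop :=
  ∃ B : Set G, @MeasurableSet G (borel G) B ∧ A ⊆ B ∧
    ∃ C : Set G, IsCompact C ∧ C.Nonempty ∧
      ∀ g : G, IsMeagre {x : C | (x : G) ∈ (fun b => b + g) '' B}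

/-- In some abelian Polish group there are two strongly Haar meager sets whose union is not
strongly Haar meager. -/
theorem result :
    ∃ (G : Type) (_ : AddCommGroup G) (_ : TopologicalSpace G) (_ : IsTopologicalAddGroup G)
      (_ : PolishSpace G) (A₀ A₁ : Set G),
      StronglyHaarMeager A₀ ∧ StronglyHaarMeager A₁ ∧ ¬ StronglyHaarMeager (A₀ ∪ A₁) := by
  open Pool.Agent.H39.SHM in
  refine ⟨G, inferInstance, inferInstance, inferInstance, inferInstance, A B0, A B1, ?_, ?_, ?_⟩
  · open Pool.Agent.H39.SHM in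
    refine ⟨A B0, ?_, subset_rfl, D0, compact_D0, ⟨0, fun k => by simp; positivity⟩,
      meagre_A (fun _ _ h => h.1) (fun x hx k => (hx k).1) small0⟩
    rw [← BorelSpace.measurable_eq]
    exact Pool.Agent.H39.SHM.measurableSet_A (fun _ _ h => h.1)
      Pool.Agent.H39.SHM.measurableSet_B0
  · open Pool.Agent.H39.SHM in
    refine ⟨A B1, ?_, subset_rfl, D1, compact_D1, ⟨0, fun k => by simp⟩,
      meagre_A (fun _ _ h => h.1) (fun x hx k => (hx k).1) small1⟩
    rw [← BorelSpace.measurable_eq]
    exact Pool.Agent.H39.SHM.measurableSet_A (fun _ _ h => h.1)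
      Pool.Agent.H39.SHM.measurableSet_B1
  · rintro ⟨B, -, hB, C, hC, hne, h⟩
    obtain ⟨p, hp⟩ := Pool.Agent.H39.SHM.not_meagre hC hne
    refine hp ((h (-Pool.Agent.H39.SHM.gp p)).mono ?_)
    rintro y (hy | hy)
    · exact ⟨_, hB (Or.inl ⟨(p, y), hy, rfl⟩), by simp⟩
    · exact ⟨_, hB (Or.inr ⟨(p, y), hy, rfl⟩), by simp⟩

end Pool.Agent.Results.MP_056111_lc.NotSigmaIdeal
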